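import Pool.Agent.H465.OC.All

/-!
# Unit root congruences at ordinary primes for the meromorphic modular forms `E_k/(j - j(C))`

Let `k` be one of `4, 6, 8, 10, 14` and let `C` be an elliptic curve over `ℚ`, `j(C) ≠ 0, 1728`.  Let
`∑ a(n) q^n` be the `q`-expansion of `E_k/(j - j(C))`.  Let `p` be a prime (`2` and `3` included) at
which `C` has good ordinary reduction, such that `j(C)` and `j(C) - 1728` are `p`-adic units, and
`u` the `p`-adic unit with `u² - a_p(C) u + p = 0`.  We prove, for all integers `n, l ≥ 1`,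

  `a(n p^l) ≡ u^(k-2) a(n p^(l-1))   mod p^l ℤ_p`.

This is Q1 of the problem in full.

Proof.
* *Duality.*  Let `b` be the one of `1, E_4, E_6, E_4², E_4 E_6` with `b E_k = E_4² E_6`, and let
  `f_m = b Δ⁻¹ P_m(j) = q^(-m) + O(1)`, `P_m ∈ ℤ[x]`, be the basis of the weakly holomorphic forms of
  weight `2 - k`.  By the residue theorem `P_m(c)` is the `m`-th coefficient of `E_k/(j - c)`.
* *Hecke operators.*  The Hecke operator `f ↦ V f + p^(k-1) U f` of weight `2 - k` gives
  `V f_m ≡ f_{pm}` modulo `p^(l+1)` if `p^l ∣ m`; so `P_{pm}(j) ≡ L · V(P_m(j))` modulo `p^(l+1)`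
  with `L = V(b/Δ)/(b/Δ)`.
* *Ordinary points.*  A Laurent series `s` in `q` is represented near the point `c` if modulo every
  power of `p` it is `g(j)/h(j)` with polynomials `g`, `h`, `h(c)` a unit; it is then a function on
  the residue disc of `c`.  There is a polynomial `A` with `A(j) Δ^(p-1) ≡ 1` modulo `p`, and `A(c)`
  is a unit because `c` is ordinary; this and the Hecke operators in negative weights show that
  `V j`, `V E_4/E_4`, `V E_6/E_6`, `V Δ/Δ` are represented.  `V j` gives a lift `φ` of the Frobenius,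
  a contraction of the disc with a fixed point `c₀` (the canonical lift).
* *Dwork's lemma.*  The congruences `P_{pm} ≡ L · (P_m ∘ φ)` modulo `p^(l+1)` on the whole disc imply
  `P_{n p^(l+1)}(c) ≡ L(c₀) P_{n p^l}(c)` modulo `p^(l+1)`: the factor does not depend on the point of
  the disc.
* *The factor.*  `L(c₀)` is a power of `w = (V E_4/E_4)(c₀)/(V E_6/E_6)(c₀)`, and the modular equation
  for `V E_4/E_4`, `V E_6/E_6`, `V Δ/Δ`, evaluated at `c₀` and transported to the complex numbers,
  shows by the theory of complex multiplication (in an elementary form: a complex torus with an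
  endomorphism of degree `p`) that `w² + p² = (t² - 2p) w` with an integer `t`, `t² < 4p`.
* *The trace.*  `t² = a_p(C)²`: both are congruent modulo `p` by the Hasse invariant, and less than
  `4p`; this suffices for `p ≥ 17`.  For `p = 2` it is clear and for `3 ≤ p ≤ 13` we use the
  congruence modulo `p²` for `n = l = 1` and a finite computation.  Hence `w = u²`.

The lemmas are proved in the files imported by `Pool.Agent.H465.OC.Pre`, their statements are in
`Pool.Agent.H465.OC.StmA`, `StmB`, `StmC`.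
-/

set_option autoImplicit false

namespace Pool.Agent.Results.MP_f38b71_nt.UnitRootCongruences

/-- The normalised Eisenstein series `E_k = 1 - (2k/B_k) ∑_{n ≥ 1} σ_{k-1}(n) q^n`. -/
noncomputable def E (k : ℕ) : PowerSeries ℚ :=
  PowerSeries.mk fun n => if n = 0 then 1 else
    -(2 * (k : ℚ) / bernoulli k) * (ArithmeticFunction.sigma (k - 1) n : ℚ)

/-- `Δ = (E_4^3 - E_6^2)/1728` -/
noncomputable def Delta : PowerSeries ℚ := PowerSeries.C (1 / 1728) * (E 4 ^ 3 - E 6 ^ 2)

/-- the `j`-invariant `j = E_4^3/Δ = q^(-1) + 744 + ⋯` -/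
noncomputable def j : LaurentSeries ℚ := (E 4 : LaurentSeries ℚ) ^ 3 / (Delta : LaurentSeries ℚ)

/-- the `q`-expansion of `F_{k,C} = E_k/(j - j(C))`, as a function of `k` and `j0 = j(C)` -/
noncomputable def F (k : ℕ) (j0 : ℚ) : LaurentSeries ℚ :=
  (E k : LaurentSeries ℚ) / (j - HahnSeries.C j0)

/-- `W` is an integral Weierstrass model of `C` with good reduction at `p` -/
structure IsGoodModel (C : WeierstrassCurve ℚ) (p : ℕ) (W : WeierstrassCurve ℤ) : Prop where
  /-- `W` is a model of `C` -/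
  model : ∃ v : WeierstrassCurve.VariableChange ℚ, v • C = W.map (Int.castRingHom ℚ)
  /-- `p` does not divide the discriminant -/
  good : ¬ (p : ℤ) ∣ W.Δ

/-- `a_p = p + 1 - #W(𝔽_p)`, the point at infinity included -/
noncomputable def ap (W : WeierstrassCurve ℤ) (p : ℕ) : ℤ :=
  p + 1 - (Nat.card (W.map (Int.castRingHom (ZMod p))).toAffine.Point : ℕ)

/-- The congruences, at all primes of good ordinary reduction for which `j(C)` and `j(C) - 1728`
are `p`-adic units; the valuation of `a(n p^l) - u^(k-2) a(n p^(l-1))` is at least `l`. -/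
theorem result (k : ℕ) (hk : k ∈ ({4, 6, 8, 10, 14} : Finset ℕ))
    (C : WeierstrassCurve ℚ) [C.IsElliptic] (h0 : C.j ≠ 0) (h1728 : C.j ≠ 1728)
    (p : ℕ) [Fact p.Prime] (W : WeierstrassCurve ℤ) (hW : IsGoodModel C p W)
    (hord : ¬ (p : ℤ) ∣ ap W p)
    (hj : padicValRat p C.j = 0) (hj' : padicValRat p (C.j - 1728) = 0) :
    (∃! u : ℤ_[p], IsUnit u ∧ u ^ 2 - (ap W p : ℤ_[p]) * u + p = 0) ∧
    ∀ u : ℤ_[p], IsUnit u → u ^ 2 - (ap W p : ℤ_[p]) * u + p = 0 →
      ∀ n l : ℕ, 1 ≤ n → 1 ≤ l → ∃ s : ℤ_[p],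
        (((F k C.j).coeff (n * p ^ l) : ℚ) : ℚ_[p]) -
          (u : ℚ_[p]) ^ (k - 2) * (((F k C.j).coeff (n * p ^ (l - 1)) : ℚ) : ℚ_[p]) =
        (p : ℚ_[p]) ^ l * (s : ℚ_[p]) := by
  have hF : Q279.FB.F k 1 C.j = F k C.j := by
    unfold Q279.FB.F
    rw [pow_one]
    rfl
  have hap : Q279.FB.ap W p = ap W p := rfl
  have h := Pool.Agent.H465.OC.all k hk C h0 h1728 p W ⟨hW.model, hW.good⟩ hord hj hj'
  rw [hap, hF] at h
  refine ⟨h.1, fun u hu hu2 n l hn hl => ?_⟩
  obtain ⟨s, hs⟩ := h.2 u hu hu2 n l hn hl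
  rw [Q279.FB.a_nat, Q279.FB.a_nat] at hs
  push_cast at hs
  exact ⟨s, hs⟩

end Pool.Agent.Results.MP_f38b71_nt.UnitRootCongruences
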